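import Pool.Agent.Helper20.QD.St4

/-!
# Project QD (MP_d112a4_gt), part B, module FSG: geodesic segments in hyperbolic space
-/

open Filter Topology Matrix Set Metric
open scoped ComplexConjugate ComplexOrder

namespace Pool.Agent.Helper38.QD

open Pool.Agent.Helper35.PM Pool.Agent.Helper20.QD

/-- the diagonal matrix with entries `e^t`, `e^{-t}` -/
noncomputable def Dg (t : ℝ) : Mat := diagonal ![(Real.exp t : ℂ), (Real.exp (-t) : ℂ)]

lemma diag2 (a b : ℂ) : (diagonal ![a, b] : Mat) = !![a, 0; 0, b] := by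
  ext i j
  fin_cases i <;> fin_cases j <;> simp

/-- entries of a positive definite matrix of determinant one -/
lemma entries (R : Mat) (h : R.PosDef) (h1 : R.det = 1) :
    ∃ (a d : ℝ) (z : ℂ), 0 < a ∧ 0 < d ∧ R = !![(a : ℂ), z; conj z, (d : ℂ)] ∧
      a * d = 1 + ‖z‖ ^ 2 := by
  have h00 : conj (R 0 0) = R 0 0 := h.1.apply 0 0
  have h11 : conj (R 1 1) = R 1 1 := h.1.apply 1 1
  have h10 : conj (R 0 1) = R 1 0 := h.1.apply 1 0
  have p0 : 0 < R 0 0 := h.diag_pos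
  have p1 : 0 < R 1 1 := h.diag_pos
  have q0 := Complex.pos_iff.1 p0
  have q1 := Complex.pos_iff.1 p1
  have e0 : R 0 0 = ((R 0 0).re : ℂ) := (Complex.conj_eq_iff_real.1 h00).elim
    fun r hr => by rw [hr, Complex.ofReal_re]
  have e1 : R 1 1 = ((R 1 1).re : ℂ) := (Complex.conj_eq_iff_real.1 h11).elim
    fun r hr => by rw [hr, Complex.ofReal_re]
  refine ⟨(R 0 0).re, (R 1 1).re, R 0 1, q0.1, q1.1, ?_, ?_⟩
  · ext i j
    fin_cases i <;> fin_cases j
    · simpa using e0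
    · simp
    · simpa using h10.symm
    · simpa using e1
  · have hd := h1
    rw [Matrix.det_fin_two, e0, e1, ← h10, Complex.mul_conj, Complex.normSq_eq_norm_sq] at hd
    have : (R 0 0).re * (R 1 1).re - ‖R 0 1‖ ^ 2 = 1 := by exact_mod_cast hd
    linarith

/-- Cholesky decomposition -/
lemma chol (R : Mat) (h : R.PosDef) (h1 : R.det = 1) : ∃ G : Mat, G.det = 1 ∧ R = G * Gᴴ := by
  obtain ⟨a, d, z, ha, hd, hR, had⟩ := entries R h h1
  have hs : (Real.sqrt a) * (Real.sqrt a) = a := Real.mul_self_sqrt ha.le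
  have hs0 : Real.sqrt a ≠ 0 := (Real.sqrt_pos.2 ha).ne'
  have hsC : ((Real.sqrt a : ℝ) : ℂ) * ((Real.sqrt a : ℝ) : ℂ) = (a : ℂ) := by exact_mod_cast hs
  have hsC0 : ((Real.sqrt a : ℝ) : ℂ) ≠ 0 := by exact_mod_cast hs0
  have hzz : z * conj z = ((‖z‖ ^ 2 : ℝ) : ℂ) := by
    rw [Complex.mul_conj, Complex.normSq_eq_norm_sq]
  refine ⟨!![(Real.sqrt a : ℂ), 0; conj z / (Real.sqrt a : ℂ), 1 / (Real.sqrt a : ℂ)], ?_, ?_⟩
  · rw [Matrix.det_fin_two_of]
    field_simp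
    ring
  · rw [hR]
    ext i j
    fin_cases i <;> fin_cases j
    · simp [Matrix.mul_apply, hsC]
    · simp [Matrix.mul_apply]
      field_simp
    · simp [Matrix.mul_apply]
      field_simp
    · simp only [Matrix.mul_apply, Fin.sum_univ_two, Matrix.conjTranspose_apply]
      simp
      have had' : (a : ℂ) * d = 1 + ((‖z‖ ^ 2 : ℝ) : ℂ) := by exact_mod_cast had
      field_simp
      rw [pow_two, hsC]
      rw [mul_comm, had', ← hzz]
      ring

lemma Dg_zero : Dg 0 = 1 := by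
  unfold Dg
  ext i j
  fin_cases i <;> fin_cases j <;> simp

/-- simultaneous diagonalisation -/
lemma simdiag (R R' : Mat) (h : R.PosDef) (h' : R'.PosDef) (h1 : R.det = 1) (h1' : R'.det = 1) :
    ∃ (B : Mat) (τ : ℝ), 0 ≤ τ ∧ B.det * conj B.det = 1 ∧ R = B * Dg 0 * Bᴴ ∧
      R' = B * Dg τ * Bᴴ := by
  obtain ⟨G, hG, hRG⟩ := chol R h h1
  have hGu : IsUnit G.det := by rw [hG]; exact isUnit_one
  have hGi : G * G⁻¹ = 1 := Matrix.mul_nonsing_inv G hGu
  have hiG : G⁻¹ * G = 1 := Matrix.nonsing_inv_mul G hGu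
  have hGd : G⁻¹.det = 1 := by rw [Matrix.det_nonsing_inv, hG]; simp
  obtain ⟨K, hK⟩ : ∃ K : Mat, K = G⁻¹ * R' * (G⁻¹)ᴴ := ⟨_, rfl⟩
  have hKpd : K.PosDef := by
    rw [hK]
    apply h'.mul_mul_conjTranspose_same
    rw [Matrix.vecMul_injective_iff_isUnit, Matrix.isUnit_iff_isUnit_det, hGd]
    exact isUnit_one
  have hKdet : K.det = 1 := by
    rw [hK, Matrix.det_mul, Matrix.det_mul, Matrix.det_conjTranspose, hGd, h1']
    simp
  have hR'K : R' = G * K * Gᴴ := by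
    rw [hK]
    have e1 : (G⁻¹)ᴴ * Gᴴ = 1 := by
      rw [← Matrix.conjTranspose_mul, hGi, Matrix.conjTranspose_one]
    calc R' = (G * G⁻¹) * R' * ((G⁻¹)ᴴ * Gᴴ) := by rw [hGi, e1, Matrix.one_mul, Matrix.mul_one]
      _ = G * (G⁻¹ * R' * (G⁻¹)ᴴ) * Gᴴ := by simp only [Matrix.mul_assoc]
  -- spectral theorem
  have hsp := hKpd.1.spectral_theorem
  rw [Unitary.conjStarAlgAut_apply] at hsp
  obtain ⟨U, hU⟩ : ∃ U : Mat, U = (hKpd.1.eigenvectorUnitary : Mat) := ⟨_, rfl⟩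
  have hUU : U * Uᴴ = 1 := by
    rw [hU, ← Matrix.star_eq_conjTranspose]
    exact Unitary.coe_mul_star_self _
  have hUU' : Uᴴ * U = 1 := by
    rw [hU, ← Matrix.star_eq_conjTranspose]
    exact Unitary.coe_star_mul_self _
  obtain ⟨l0, hl0⟩ : ∃ l : ℝ, l = hKpd.1.eigenvalues 0 := ⟨_, rfl⟩
  obtain ⟨l1, hl1⟩ : ∃ l : ℝ, l = hKpd.1.eigenvalues 1 := ⟨_, rfl⟩
  have p0 : 0 < l0 := by rw [hl0]; exact hKpd.eigenvalues_pos 0
  have p1 : 0 < l1 := by rw [hl1]; exact hKpd.eigenvalues_pos 1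
  have hdet : l0 * l1 = 1 := by
    have := hKpd.1.det_eq_prod_eigenvalues
    rw [hKdet, Fin.prod_univ_two, ← hl0, ← hl1] at this
    have h2 : (1 : ℂ) = (l0 : ℂ) * (l1 : ℂ) := this
    exact_mod_cast h2.symm
  have hdiag : (diagonal (RCLike.ofReal ∘ hKpd.1.eigenvalues) : Mat) =
      diagonal ![(l0 : ℂ), (l1 : ℂ)] := by
    congr 1
    funext i
    fin_cases i
    · simp [hl0]
    · simp [hl1]
  have hKU : K = U * diagonal ![(l0 : ℂ), (l1 : ℂ)] * Uᴴ := by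
    rw [hdiag] at hsp
    rw [hU]
    exact hsp
  have hUdet : U.det * conj U.det = 1 := by
    have := congrArg Matrix.det hUU
    rw [Matrix.det_mul, Matrix.det_conjTranspose, Matrix.det_one] at this
    exact this
  rcases le_total 1 l0 with hle | hle
  · refine ⟨G * U, Real.log l0, Real.log_nonneg hle, ?_, ?_, ?_⟩
    · rw [Matrix.det_mul, hG, one_mul]
      exact hUdet
    · rw [Dg_zero, Matrix.mul_one, Matrix.conjTranspose_mul, hRG]
      calc G * Gᴴ = G * (U * Uᴴ) * Gᴴ := by rw [hUU, Matrix.mul_one]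
        _ = _ := by simp only [Matrix.mul_assoc]
    · have hD : Dg (Real.log l0) = diagonal ![(l0 : ℂ), (l1 : ℂ)] := by
        unfold Dg
        rw [Real.exp_neg, Real.exp_log p0, show l0⁻¹ = l1 from by
          rw [inv_eq_iff_eq_inv]; exact eq_inv_of_mul_eq_one_left hdet]
      rw [hD, hR'K, hKU, Matrix.conjTranspose_mul]
      simp only [Matrix.mul_assoc]
  · obtain ⟨W, hW⟩ : ∃ W : Mat, W = !![0, 1; 1, 0] := ⟨_, rfl⟩
    have hWW : W * Wᴴ = 1 := by
      rw [hW]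
      ext i j
      fin_cases i <;> fin_cases j <;> simp [Matrix.mul_apply]
    have hWD : W * diagonal ![(l1 : ℂ), (l0 : ℂ)] * Wᴴ = diagonal ![(l0 : ℂ), (l1 : ℂ)] := by
      rw [hW, diag2, diag2]
      ext i j
      fin_cases i <;> fin_cases j <;> simp [Matrix.mul_apply]
    have hWdet : W.det * conj W.det = 1 := by
      rw [hW, Matrix.det_fin_two_of]
      simp
    have hl1' : 1 ≤ l1 := by nlinarith
    refine ⟨G * U * W, Real.log l1, Real.log_nonneg hl1', ?_, ?_, ?_⟩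
    · rw [Matrix.det_mul, Matrix.det_mul, hG, one_mul, map_mul]
      linear_combination hWdet * (U.det * conj U.det) + hUdet
    · rw [Dg_zero, Matrix.mul_one, Matrix.conjTranspose_mul, Matrix.conjTranspose_mul, hRG]
      calc G * Gᴴ = G * (U * (W * Wᴴ) * Uᴴ) * Gᴴ := by
            rw [hWW, Matrix.mul_one, hUU, Matrix.mul_one]
        _ = _ := by simp only [Matrix.mul_assoc]
    · have hD : Dg (Real.log l1) = diagonal ![(l1 : ℂ), (l0 : ℂ)] := by
        unfold Dg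
        rw [Real.exp_neg, Real.exp_log p1, show l1⁻¹ = l0 from by
          rw [inv_eq_iff_eq_inv]; exact eq_inv_of_mul_eq_one_right hdet]
      rw [hD, hR'K, hKU, ← hWD, Matrix.conjTranspose_mul, Matrix.conjTranspose_mul]
      simp only [Matrix.mul_assoc]

/-- the path -/
noncomputable def Sp (B : Mat) (t : ℝ) : Mat := B * Dg t * Bᴴ

lemma Sp_posDef (B : Mat) (hB : B.det * conj B.det = 1) (t : ℝ) : (Sp B t).PosDef := by
  unfold Sp
  have hB0 : B.det ≠ 0 := by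
    intro h0
    rw [h0, zero_mul] at hB
    exact zero_ne_one hB
  apply Matrix.PosDef.mul_mul_conjTranspose_same
  · unfold Dg
    rw [Matrix.posDef_diagonal_iff]
    intro i
    fin_cases i
    · simpa using Complex.zero_lt_real.2 (Real.exp_pos t)
    · simpa using Complex.zero_lt_real.2 (Real.exp_pos (-t))
  · rw [Matrix.vecMul_injective_iff_isUnit, Matrix.isUnit_iff_isUnit_det]
    exact isUnit_iff_ne_zero.2 hB0

lemma Dg_det (t : ℝ) : (Dg t).det = 1 := by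
  unfold Dg
  rw [diag2, Matrix.det_fin_two_of, zero_mul, sub_zero, ← Complex.ofReal_mul, ← Real.exp_add]
  simp

lemma Sp_det (B : Mat) (hB : B.det * conj B.det = 1) (t : ℝ) : (Sp B t).det = 1 := by
  unfold Sp
  rw [Matrix.det_mul, Matrix.det_mul, Matrix.det_conjTranspose, Dg_det, mul_one]
  exact hB

lemma Sp_entries (B : Mat) (t : ℝ) : Sp B t =
    !![(Real.exp t : ℂ) * (B 0 0 * conj (B 0 0)) + (Real.exp (-t) : ℂ) * (B 0 1 * conj (B 0 1)),
       (Real.exp t : ℂ) * (B 0 0 * conj (B 1 0)) + (Real.exp (-t) : ℂ) * (B 0 1 * conj (B 1 1));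
       (Real.exp t : ℂ) * (B 1 0 * conj (B 0 0)) + (Real.exp (-t) : ℂ) * (B 1 1 * conj (B 0 1)),
       (Real.exp t : ℂ) * (B 1 0 * conj (B 1 0)) + (Real.exp (-t) : ℂ) * (B 1 1 * conj (B 1 1))]
      := by
  unfold Sp Dg
  rw [diag2]
  ext i j
  fin_cases i <;> fin_cases j <;> simp [Matrix.mul_apply] <;> ring

lemma Sp_comb (B : Mat) (τ t : ℝ) (ht : t ∈ Icc 0 τ) :
    ∃ x y : ℝ, 0 ≤ x ∧ 0 ≤ y ∧ Sp B t = (x : ℂ) • Sp B 0 + (y : ℂ) • Sp B τ := by
  rcases (ht.1.trans ht.2).eq_or_lt with h0 | h0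
  · refine ⟨1, 0, zero_le_one, le_rfl, ?_⟩
    have : t = 0 := le_antisymm (by rw [h0]; exact ht.2) ht.1
    rw [this]
    simp
  · have hs : 0 < Real.sinh τ := Real.sinh_pos_iff.2 h0
    have e1 : Real.exp t = Real.sinh (τ - t) / Real.sinh τ + Real.sinh t / Real.sinh τ * Real.exp τ
        := by
      rw [div_add' _ _ _ hs.ne', eq_div_iff hs.ne']
      field_simp
      rw [Real.sinh_eq, Real.sinh_eq, Real.sinh_eq]
      have a1 : Real.exp (τ - t) = Real.exp τ * Real.exp (-t) := by rw [← Real.exp_add]; ring_nf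
      have a2 : Real.exp (-(τ - t)) = Real.exp (-τ) * Real.exp t := by
        rw [← Real.exp_add]; ring_nf
      rw [a1, a2]
      ring
    have e2 : Real.exp (-t) = Real.sinh (τ - t) / Real.sinh τ +
        Real.sinh t / Real.sinh τ * Real.exp (-τ) := by
      rw [div_add' _ _ _ hs.ne', eq_div_iff hs.ne']
      field_simp
      rw [Real.sinh_eq, Real.sinh_eq, Real.sinh_eq]
      have a1 : Real.exp (τ - t) = Real.exp τ * Real.exp (-t) := by rw [← Real.exp_add]; ring_nf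
      have a2 : Real.exp (-(τ - t)) = Real.exp (-τ) * Real.exp t := by
        rw [← Real.exp_add]; ring_nf
      rw [a1, a2]
      ring
    refine ⟨Real.sinh (τ - t) / Real.sinh τ, Real.sinh t / Real.sinh τ,
      div_nonneg (Real.sinh_nonneg_iff.2 (by linarith [ht.2])) hs.le,
      div_nonneg (Real.sinh_nonneg_iff.2 ht.1) hs.le, ?_⟩
    obtain ⟨x, hx⟩ : ∃ x : ℝ, x = Real.sinh (τ - t) / Real.sinh τ := ⟨_, rfl⟩
    obtain ⟨y, hy⟩ : ∃ y : ℝ, y = Real.sinh t / Real.sinh τ := ⟨_, rfl⟩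
    rw [← hx, ← hy] at e1 e2 ⊢
    have hD : Dg t = (x : ℂ) • Dg 0 + (y : ℂ) • Dg τ := by
      unfold Dg
      rw [diag2, diag2, diag2, e1, e2]
      ext i j
      fin_cases i <;> fin_cases j <;> simp
    unfold Sp
    rw [hD, Matrix.mul_add, Matrix.add_mul, Matrix.mul_smul, Matrix.smul_mul, Matrix.mul_smul,
      Matrix.smul_mul]

lemma Sp_adj (B : Mat) (hB : B.det * conj B.det = 1) (t u : ℝ) :
    ((Sp B t).adjugate * Sp B u).trace = ((2 * Real.cosh (t - u) : ℝ) : ℂ) := by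
  have e : ((2 * Real.cosh (t - u) : ℝ) : ℂ) = (Real.exp t : ℂ) * (Real.exp (-u) : ℂ) +
      (Real.exp (-t) : ℂ) * (Real.exp u : ℂ) := by
    rw [Real.cosh_eq]
    have a1 : Real.exp (t - u) = Real.exp t * Real.exp (-u) := by rw [← Real.exp_add]; ring_nf
    have a2 : Real.exp (-(t - u)) = Real.exp (-t) * Real.exp u := by
      rw [← Real.exp_add]; ring_nf
    rw [a1, a2]
    push_cast
    ring
  rw [e, Sp_entries, Sp_entries, Matrix.adjugate_fin_two_of, Matrix.trace_fin_two]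
  simp only [Matrix.mul_apply, Fin.sum_univ_two]
  rw [Matrix.det_fin_two] at hB
  simp only [map_sub, map_mul] at hB
  generalize ((Real.exp t : ℝ) : ℂ) = x1
  generalize ((Real.exp (-t) : ℝ) : ℂ) = x2
  generalize ((Real.exp u : ℝ) : ℂ) = y1
  generalize ((Real.exp (-u) : ℝ) : ℂ) = y2
  simp
  linear_combination (x1 * y2 + x2 * y1) * hB

/-- column norms -/
lemma Sp_trace (B : Mat) (hB : B.det * conj B.det = 1) : ∃ α β : ℝ, 0 < α ∧ 0 < β ∧
    ∀ t, (Sp B t).trace.re = α * Real.exp t + β * Real.exp (-t) := by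
  have hB0 : B.det ≠ 0 := by
    intro h0
    rw [h0, zero_mul] at hB
    exact zero_ne_one hB
  refine ⟨‖B 0 0‖ ^ 2 + ‖B 1 0‖ ^ 2, ‖B 0 1‖ ^ 2 + ‖B 1 1‖ ^ 2, ?_, ?_, ?_⟩
  · by_contra hc
    have h1 : ‖B 0 0‖ ^ 2 = 0 := by nlinarith [sq_nonneg ‖B 0 0‖, sq_nonneg ‖B 1 0‖]
    have h2 : ‖B 1 0‖ ^ 2 = 0 := by nlinarith [sq_nonneg ‖B 0 0‖, sq_nonneg ‖B 1 0‖]
    rw [sq_eq_zero_iff, norm_eq_zero] at h1 h2
    apply hB0
    rw [Matrix.det_fin_two, h1, h2]
    ring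
  · by_contra hc
    have h1 : ‖B 0 1‖ ^ 2 = 0 := by nlinarith [sq_nonneg ‖B 0 1‖, sq_nonneg ‖B 1 1‖]
    have h2 : ‖B 1 1‖ ^ 2 = 0 := by nlinarith [sq_nonneg ‖B 0 1‖, sq_nonneg ‖B 1 1‖]
    rw [sq_eq_zero_iff, norm_eq_zero] at h1 h2
    apply hB0
    rw [Matrix.det_fin_two, h1, h2]
    ring
  · intro t
    rw [Sp_entries, Matrix.trace_fin_two_of]
    simp only [Complex.mul_conj, Complex.normSq_eq_norm_sq, ← Complex.ofReal_mul,
      ← Complex.ofReal_add, Complex.ofReal_re]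
    ring

/-- the minimum of `α e^t + β e^{-t}` -/
lemma minim (α β τ : ℝ) (hα : 0 < α) (hβ : 0 < β) (hτ : 0 ≤ τ) : ∃ t0 ∈ Icc 0 τ, ∀ t ∈ Icc 0 τ,
    (α * Real.exp t0 + β * Real.exp (-t0)) / 2 * Real.exp |t - t0| ≤
      α * Real.exp t + β * Real.exp (-t) := by
  -- the two one sided inequalities
  have right : ∀ t0 t : ℝ, t0 ≤ t → β * Real.exp (-t0) ≤ α * Real.exp t0 →
      (α * Real.exp t0 + β * Real.exp (-t0)) / 2 * Real.exp |t - t0| ≤
      α * Real.exp t + β * Real.exp (-t) := by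
    intro t0 t h1 h2
    rw [abs_of_nonneg (by linarith)]
    have e1 : Real.exp t = Real.exp t0 * Real.exp (t - t0) := by rw [← Real.exp_add]; ring_nf
    have e3 : 0 ≤ β * Real.exp (-t) := by positivity
    have e2 : 0 < Real.exp (t - t0) := Real.exp_pos _
    rw [e1]
    nlinarith
  have left : ∀ t0 t : ℝ, t ≤ t0 → α * Real.exp t0 ≤ β * Real.exp (-t0) →
      (α * Real.exp t0 + β * Real.exp (-t0)) / 2 * Real.exp |t - t0| ≤
      α * Real.exp t + β * Real.exp (-t) := by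
    intro t0 t h1 h2
    rw [abs_of_nonpos (by linarith)]
    have e1 : Real.exp (-t) = Real.exp (-t0) * Real.exp (-(t - t0)) := by
      rw [← Real.exp_add]; ring_nf
    have e3 : 0 ≤ α * Real.exp t := by positivity
    have e2 : 0 < Real.exp (-(t - t0)) := Real.exp_pos _
    rw [e1]
    nlinarith
  rcases le_total β α with h | h
  · refine ⟨0, ⟨le_rfl, hτ⟩, fun t ht => right 0 t ht.1 ?_⟩
    simpa using h
  rcases le_total (α * Real.exp τ) (β * Real.exp (-τ)) with h' | h'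
  · exact ⟨τ, ⟨hτ, le_rfl⟩, fun t ht => left τ t ht.2 h'⟩
  · obtain ⟨s, hs⟩ : ∃ s : ℝ, s = Real.log (β / α) / 2 := ⟨_, rfl⟩
    have hba : 0 < β / α := div_pos hβ hα
    have h2s : Real.exp (2 * s) = β / α := by
      rw [hs, mul_div_cancel₀ _ (two_ne_zero' ℝ), Real.exp_log hba]
    have hs0 : 0 ≤ s := by
      rw [hs]
      apply div_nonneg _ zero_le_two
      exact Real.log_nonneg (by rwa [le_div_iff₀ hα, one_mul])
    have heq : α * Real.exp s = β * Real.exp (-s) := by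
      have e1 : Real.exp s = Real.exp (2 * s) * Real.exp (-s) := by rw [← Real.exp_add]; ring_nf
      rw [e1, h2s]
      field_simp
    have hsτ : s ≤ τ := by
      by_contra hc
      push Not at hc
      have e1 : Real.exp τ < Real.exp s := Real.exp_lt_exp.2 hc
      have e2 : Real.exp (-s) < Real.exp (-τ) := Real.exp_lt_exp.2 (by linarith)
      nlinarith
    refine ⟨s, ⟨hs0, hsτ⟩, fun t ht => ?_⟩
    rcases le_total s t with h3 | h3
    · exact right s t h3 heq.ge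
    · exact left s t h3 heq.le

/-- the determinant inequality in real coordinates -/
lemma real_ineq (a d a' d' zr zi zr' zi' x y m : ℝ) (ha : 0 < a) (hd : 0 < d) (ha' : 0 < a')
    (hd' : 0 < d') (hx : 0 ≤ x) (hy : 0 ≤ y) (hm : 0 < m)
    (had : a * d = 1 + (zr * zr + zi * zi)) (had' : a' * d' = 1 + (zr' * zr' + zi' * zi'))
    (hdet' : (x * a + y * a') * (x * d + y * d') - ((x * zr + y * zr') ^ 2 +
      (x * zi + y * zi') ^ 2) = 1)
    (hm2 : x * (a + d) + y * (a' + d') = m) :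
    1 / m ^ 2 ≤ 1 / (a + d) ^ 2 + 1 / (a' + d') ^ 2 +
      ((a / (a + d) - a' / (a' + d')) ^ 2 + (d / (a + d) - d' / (a' + d')) ^ 2 +
      2 * ((zr / (a + d) - zr' / (a' + d')) ^ 2 + (zi / (a + d) - zi' / (a' + d')) ^ 2)) := by
  have hTp : 0 < a + d := by linarith
  have hTp' : 0 < a' + d' := by linarith
  obtain ⟨T, hTd⟩ : ∃ T : ℝ, T = a + d := ⟨_, rfl⟩
  obtain ⟨T', hTd'⟩ : ∃ T' : ℝ, T' = a' + d' := ⟨_, rfl⟩
  rw [← hTd] at hTp hm2 ⊢
  rw [← hTd'] at hTp' hm2 ⊢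
  obtain ⟨p, hp⟩ : ∃ p : ℝ, p = a / T := ⟨_, rfl⟩
  obtain ⟨q, hq⟩ : ∃ q : ℝ, q = d / T := ⟨_, rfl⟩
  obtain ⟨ζ, hζ⟩ : ∃ ζ : ℝ, ζ = zr / T := ⟨_, rfl⟩
  obtain ⟨η, hη⟩ : ∃ η : ℝ, η = zi / T := ⟨_, rfl⟩
  obtain ⟨p', hp'⟩ : ∃ p : ℝ, p = a' / T' := ⟨_, rfl⟩
  obtain ⟨q', hq'⟩ : ∃ q : ℝ, q = d' / T' := ⟨_, rfl⟩
  obtain ⟨ζ', hζ'⟩ : ∃ ζ : ℝ, ζ = zr' / T' := ⟨_, rfl⟩
  obtain ⟨η', hη'⟩ : ∃ η : ℝ, η = zi' / T' := ⟨_, rfl⟩
  obtain ⟨u, hu⟩ : ∃ u : ℝ, u = x * T / m := ⟨_, rfl⟩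
  obtain ⟨v, hv⟩ : ∃ v : ℝ, v = y * T' / m := ⟨_, rfl⟩
  have hu0 : 0 ≤ u := by rw [hu]; positivity
  have hv0 : 0 ≤ v := by rw [hv]; positivity
  have huv : u + v = 1 := by
    rw [hu, hv, ← add_div, hm2, div_self hm.ne']
  have hpq : p + q = 1 := by rw [hp, hq, ← add_div, ← hTd, div_self hTp.ne']
  have hpq' : p' + q' = 1 := by rw [hp', hq', ← add_div, ← hTd', div_self hTp'.ne']
  have hδ : p * q - ζ ^ 2 - η ^ 2 = 1 / T ^ 2 := by
    rw [hp, hq, hζ, hη]
    field_simp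
    linarith
  have hδ' : p' * q' - ζ' ^ 2 - η' ^ 2 = 1 / T' ^ 2 := by
    rw [hp', hq', hζ', hη']
    field_simp
    linarith
  have hmain : 1 / m ^ 2 = (u * p + v * p') * (u * q + v * q') - (u * ζ + v * ζ') ^ 2 -
      (u * η + v * η') ^ 2 := by
    rw [hu, hv, hp, hq, hζ, hη, hp', hq', hζ', hη']
    have e1 : ∀ w w' : ℝ, x * T / m * (w / T) + y * T' / m * (w' / T') = (x * w + y * w') / m := by
      intro w w'
      field_simp
    rw [e1, e1, e1, e1]
    field_simp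
    linarith
  rw [← hp, ← hq, ← hζ, ← hη, ← hp', ← hq', ← hζ', ← hη']
  have hv1 : v = 1 - u := by linarith
  have hq1 : q = 1 - p := by linarith
  have hq1' : q' = 1 - p' := by linarith
  have hd0 : 0 ≤ 1 / T ^ 2 := by positivity
  have hd0' : 0 ≤ 1 / T' ^ 2 := by positivity
  have hexp : 1 / m ^ 2 = u * (1 / T ^ 2) + v * (1 / T' ^ 2) +
      u * v * ((p - p') ^ 2 + (ζ - ζ') ^ 2 + (η - η') ^ 2) := by
    rw [hmain, ← hδ, ← hδ', hv1, hq1, hq1']
    ring
  have hu1 : u ≤ 1 := by linarith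
  have hv1' : v ≤ 1 := by linarith
  have huv1 : u * v ≤ 1 := mul_le_one₀ hu1 hv0 hv1'
  have hF : 0 ≤ (p - p') ^ 2 + (ζ - ζ') ^ 2 + (η - η') ^ 2 := by positivity
  have i1 : u * (1 / T ^ 2) ≤ 1 / T ^ 2 := mul_le_of_le_one_left hd0 hu1
  have i2 : v * (1 / T' ^ 2) ≤ 1 / T' ^ 2 := mul_le_of_le_one_left hd0' hv1'
  have i3 : u * v * ((p - p') ^ 2 + (ζ - ζ') ^ 2 + (η - η') ^ 2) ≤
      (p - p') ^ 2 + (ζ - ζ') ^ 2 + (η - η') ^ 2 := mul_le_of_le_one_left hF huv1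
  rw [hexp]
  have s1 := sq_nonneg (q - q')
  have s2 := sq_nonneg (ζ - ζ')
  have s3 := sq_nonneg (η - η')
  linarith

/-- the determinant inequality -/
lemma det_ineq (R R' : Mat) (h : R.PosDef) (h' : R'.PosDef) (h1 : R.det = 1) (h1' : R'.det = 1)
    (x y : ℝ) (hx : 0 ≤ x) (hy : 0 ≤ y) (hdet : ((x : ℂ) • R + (y : ℂ) • R').det = 1)
    (m : ℝ) (hm : 0 < m) (hm' : ((x : ℂ) • R + (y : ℂ) • R').trace.re = m) :
    1 / m ^ 2 ≤ (density R).det.re + (density R').det.re + fr (density R) (density R') := by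
  obtain ⟨a, d, z, ha, hd, hR, had⟩ := entries R h h1
  obtain ⟨a', d', z', ha', hd', hR', had'⟩ := entries R' h' h1'
  have hT : R.trace = ((a + d : ℝ) : ℂ) := by rw [hR, Matrix.trace_fin_two_of]; push_cast; rfl
  have hT' : R'.trace = ((a' + d' : ℝ) : ℂ) := by
    rw [hR', Matrix.trace_fin_two_of]; push_cast; rfl
  have hTp : 0 < a + d := by linarith
  have hTp' : 0 < a' + d' := by linarith
  have d1 : (density R).det.re = 1 / (a + d) ^ 2 := by
    unfold density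
    rw [Matrix.det_smul, h1, hT, mul_one, Fintype.card_fin, ← Complex.ofReal_inv,
      ← Complex.ofReal_pow, Complex.ofReal_re, inv_pow, one_div]
  have d2 : (density R').det.re = 1 / (a' + d') ^ 2 := by
    unfold density
    rw [Matrix.det_smul, h1', hT', mul_one, Fintype.card_fin, ← Complex.ofReal_inv,
      ← Complex.ofReal_pow, Complex.ofReal_re, inv_pow, one_div]
  have hfr : fr (density R) (density R') =
      (a / (a + d) - a' / (a' + d')) ^ 2 + (d / (a + d) - d' / (a' + d')) ^ 2 +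
      2 * ((z.re / (a + d) - z'.re / (a' + d')) ^ 2 + (z.im / (a + d) - z'.im / (a' + d')) ^ 2) := by
    unfold fr hs density
    rw [hT, hT', ← Complex.ofReal_inv, ← Complex.ofReal_inv]
    rw [hR, hR']
    simp only [Fin.sum_univ_two, ← Complex.normSq_eq_norm_sq, Complex.normSq_apply]
    simp [-Complex.ofReal_add, -Complex.ofReal_inv]
    field_simp
    ring
  have hdet' : (x * a + y * a') * (x * d + y * d') - ((x * z.re + y * z'.re) ^ 2 +
      (x * z.im + y * z'.im) ^ 2) = 1 := by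
    have := congrArg Complex.re hdet
    rw [hR, hR', Matrix.det_fin_two] at this
    simp at this
    linarith
  have hm2 : x * (a + d) + y * (a' + d') = m := by
    rw [Matrix.trace_add, Matrix.trace_smul, Matrix.trace_smul, hT, hT'] at hm'
    rw [← hm', smul_eq_mul, smul_eq_mul, ← Complex.ofReal_mul, ← Complex.ofReal_mul,
      ← Complex.ofReal_add, Complex.ofReal_re]
  rw [← Complex.normSq_eq_norm_sq, Complex.normSq_apply] at had had'
  rw [d1, d2, hfr]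
  exact real_ineq a d a' d' z.re z.im z'.re z'.im x y m ha hd ha' hd' hx hy hm had had' hdet' hm2

theorem hFSG : StFSG := by
  intro R R' h h' h1 h1'
  obtain ⟨B, τ, hτ, hB, hR, hR'⟩ := simdiag R R' h h' h1 h1'
  obtain ⟨α, β, hα, hβ, htr⟩ := Sp_trace B hB
  obtain ⟨t0, ht0, hmin⟩ := minim α β τ hα hβ hτ
  obtain ⟨m, hm⟩ : ∃ m : ℝ, m = α * Real.exp t0 + β * Real.exp (-t0) := ⟨_, rfl⟩
  have hm0 : 0 < m := by rw [hm]; positivity
  have hR0 : Sp B 0 = R := hR.symm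
  have hRτ : Sp B τ = R' := hR'.symm
  refine ⟨τ, Sp B, m, t0, hτ, hR0, hRτ, hm0, fun t => ⟨Sp_posDef B hB t, Sp_det B hB t⟩, ?_,
    Sp_adj B hB, ?_, ?_⟩
  · intro t ht
    obtain ⟨x, y, hx, hy, e⟩ := Sp_comb B τ t ht
    rw [hR0, hRτ] at e
    exact ⟨x, y, hx, hy, e⟩
  · intro t ht
    rw [htr t, hm]
    exact hmin t ht
  · obtain ⟨x, y, hx, hy, e⟩ := Sp_comb B τ t0 ht0
    rw [hR0, hRτ] at e
    refine det_ineq R R' h h' h1 h1' x y hx hy ?_ m hm0 ?_
    · rw [← e]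
      exact Sp_det B hB t0
    · rw [← e, htr t0, hm]

end Pool.Agent.Helper38.QD
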